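import Mathlib

set_option autoImplicit false

open Matrix

namespace Pool.Agent.Results.MP_620d87_co.AsymmetricTransfer

/-- An oriented graph on `V`: a finite simple graph with a direction for each edge. -/
structure OGraph (V : Type) where
  /-- `arc a b`: the edge `{a, b}` is present and points from `a` to `b` -/
  arc : V → V → Prop
  asymm : ∀ a b, arc a b → ¬ arc b a

open Classical in
/-- The skew adjacency matrix. -/
noncomputable def OGraph.adj {V : Type} (X : OGraph V) : Matrix V V ℝ :=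
  Matrix.of fun a b => if X.arc a b then 1 else if X.arc b a then -1 else 0

/-- Perfect state transfer from `a` to `b`: `exp(τA) e_a = l e_b`, `|l| = 1`. -/
def PST {V : Type} [Fintype V] [DecidableEq V] (X : OGraph V) (a b : V) : Prop :=
  ∃ τ l : ℝ, |l| = 1 ∧
    (NormedSpace.exp (τ • X.adj)) *ᵥ (Pi.single a 1 : V → ℝ) = l • (Pi.single b 1 : V → ℝ)

/-- Non-trivial multiple state transfer on `S`. -/
def NontrivialMST {V : Type} [Fintype V] [DecidableEq V] (X : OGraph V) (S : Finset V) : Prop :=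
  3 ≤ S.card ∧ ∀ a ∈ S, ∀ b ∈ S, a ≠ b → PST X a b

/-- The matrix `P D`, which sends `e_a` to `d a • e_{σ a}`. -/
def monomialMatrix {V : Type} [DecidableEq V] (σ : Equiv.Perm V) (d : V → ℝ) : Matrix V V ℝ :=
  Matrix.of fun i j => if i = σ j then d j else 0

/-- `P D` is a switching automorphism of `X`. -/
def IsSwitchingAut {V : Type} [Fintype V] [DecidableEq V] (X : OGraph V) (σ : Equiv.Perm V)
    (d : V → ℝ) : Prop :=
  (∀ v, d v = 1 ∨ d v = -1) ∧ (monomialMatrix σ d)ᵀ * X.adj * monomialMatrix σ d = X.adj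

/-- The multiple state transfer on `S` arises from a switching automorphism. -/
def Arises {V : Type} [Fintype V] [DecidableEq V] (X : OGraph V) (S : Finset V) : Prop :=
  ∃ (σ : Equiv.Perm V) (d : V → ℝ), IsSwitchingAut X σ d ∧ ∃ a ∈ S, PST X a (σ a) ∧
    ∀ s ∈ S, ∃ k : ℕ, (σ ^ k) a = s

/-! ### a Banach algebra lemma -/

theorem exp_mul_rot {𝔸 : Type*} [NormedRing 𝔸] [NormedAlgebra ℝ 𝔸] [CompleteSpace 𝔸]
    {a p q : 𝔸} {w : ℝ} (h1 : a * p = w • q) (h2 : a * q = -(w • p)) (t : ℝ) :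
    NormedSpace.exp (t • a) * p = Real.cos (w * t) • p + Real.sin (w * t) • q := by
  have hder : ∀ u : ℝ, HasDerivAt
      (fun u : ℝ => NormedSpace.exp (u • (-a)) * (Real.cos (w * u) • p + Real.sin (w * u) • q))
      0 u := by
    intro u
    have e1 := hasDerivAt_exp_smul_const (𝕂 := ℝ) (-a) u
    have e2 : HasDerivAt (fun u : ℝ => Real.cos (w * u) • p + Real.sin (w * u) • q)
        ((-Real.sin (w * u) * w) • p + (Real.cos (w * u) * w) • q) u := by
      have f0 : HasDerivAt (fun u : ℝ => w * u) w u := by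
        simpa using (hasDerivAt_id u).const_mul w
      exact ((f0.cos).smul_const p).add ((f0.sin).smul_const q)
    have e3 : HasDerivAt
      (fun u : ℝ => NormedSpace.exp (u • (-a)) * (Real.cos (w * u) • p + Real.sin (w * u) • q))
      (NormedSpace.exp (u • -a) * -a * (Real.cos (w * u) • p + Real.sin (w * u) • q) +
        NormedSpace.exp (u • -a) * ((-Real.sin (w * u) * w) • p + (Real.cos (w * u) * w) • q))
      u := e1.mul e2
    have e4 : NormedSpace.exp (u • -a) * -a * (Real.cos (w * u) • p + Real.sin (w * u) • q) +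
        NormedSpace.exp (u • -a) * ((-Real.sin (w * u) * w) • p + (Real.cos (w * u) * w) • q)
        = 0 := by
      rw [mul_assoc, ← mul_add, neg_mul, mul_add a, mul_smul_comm, mul_smul_comm, h1, h2]
      have : -(Real.cos (w * u) • w • q + Real.sin (w * u) • -(w • p)) +
          ((-Real.sin (w * u) * w) • p + (Real.cos (w * u) * w) • q) = 0 := by
        rw [smul_smul, smul_neg, smul_smul]
        module
      rw [this, mul_zero]
    rwa [e4] at e3
  have hconst := is_const_of_deriv_eq_zero (fun u => (hder u).differentiableAt)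
    (fun u => (hder u).deriv) t 0
  simp only [zero_smul, NormedSpace.exp_zero, mul_zero, Real.cos_zero, Real.sin_zero, one_smul,
    add_zero, one_mul] at hconst
  have hinv : NormedSpace.exp (t • a) * NormedSpace.exp (t • (-a)) = 1 := by
    let _ : NormedAlgebra ℚ 𝔸 := NormedAlgebra.restrictScalars ℚ ℝ 𝔸
    rw [smul_neg, ← NormedSpace.exp_add_of_commute (Commute.neg_right (Commute.refl _)),
      add_neg_cancel, NormedSpace.exp_zero]
  calc NormedSpace.exp (t • a) * p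
      = NormedSpace.exp (t • a) * (NormedSpace.exp (t • (-a)) *
          (Real.cos (w * t) • p + Real.sin (w * t) • q)) := by rw [hconst]
    _ = _ := by rw [← mul_assoc, hinv, one_mul]

theorem matrix_exp_mul_rot {V : Type} [Fintype V] [DecidableEq V] {a p q : Matrix V V ℝ} {w : ℝ}
    (h1 : a * p = w • q) (h2 : a * q = -(w • p)) (t : ℝ) :
    NormedSpace.exp (t • a) * p = Real.cos (w * t) • p + Real.sin (w * t) • q := by
  let _ : NormedRing (Matrix V V ℝ) := Matrix.linftyOpNormedRing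
  let _ : NormedAlgebra ℝ (Matrix V V ℝ) := Matrix.linftyOpNormedAlgebra
  exact exp_mul_rot h1 h2 t

theorem exp_mulVec_rot {V : Type} [Fintype V] [DecidableEq V] [Nonempty V] {a : Matrix V V ℝ}
    {p q : V → ℝ} {w : ℝ}
    (h1 : a *ᵥ p = w • q) (h2 : a *ᵥ q = -(w • p)) (t : ℝ) :
    NormedSpace.exp (t • a) *ᵥ p = Real.cos (w * t) • p + Real.sin (w * t) • q := by
  obtain ⟨v0⟩ := ‹Nonempty V›
  have e1 : a * Matrix.vecMulVec p (Pi.single v0 1) = w • Matrix.vecMulVec q (Pi.single v0 1) := by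
    rw [Matrix.mul_vecMulVec, h1, Matrix.smul_vecMulVec]
  have e2 : a * Matrix.vecMulVec q (Pi.single v0 1) =
      -(w • Matrix.vecMulVec p (Pi.single v0 1)) := by
    rw [Matrix.mul_vecMulVec, h2, Matrix.neg_vecMulVec, Matrix.smul_vecMulVec]
  have e3 := matrix_exp_mul_rot e1 e2 t
  rw [Matrix.mul_vecMulVec] at e3
  funext i
  have e4 := congrFun (congrFun e3 i) v0
  simpa [Matrix.vecMulVec_apply] using e4

/-! ### the example -/

/-- the arcs: a directed triangle `0 → 1 → 2 → 0`; seven vertices `3, …, 9` joined to all of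
`0, 1, 2`; a vertex `10` joined to `0` and `1`; a vertex `11` joined to `0` and `1` with the
opposite sign; `4, 4, 6` leaves at `0, 1, 2`. -/
def arcB (a b : Fin 26) : Bool :=
  (a = 0 ∧ b = 1) ∨ (a = 1 ∧ b = 2) ∨ (a = 2 ∧ b = 0) ∨ (a < 3 ∧ 3 ≤ b ∧ b < 10) ∨
  (a = 0 ∧ b = 10) ∨ (a = 1 ∧ b = 10) ∨ (a = 0 ∧ b = 11) ∨ (a = 11 ∧ b = 1) ∨
  (a = 0 ∧ 12 ≤ b ∧ b < 16) ∨ (a = 1 ∧ 16 ≤ b ∧ b < 20) ∨ (a = 2 ∧ 20 ≤ b)

theorem arcB_asymm : ∀ a b, arcB a b = true → ¬ arcB b a = true := by decide +kernel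

/-- the oriented graph of the example -/
def X : OGraph (Fin 26) := ⟨fun a b => arcB a b = true, arcB_asymm⟩

/-- its skew adjacency matrix, with integer entries -/
def AZ : Matrix (Fin 26) (Fin 26) ℤ :=
  Matrix.of fun a b => if arcB a b = true then 1 else if arcB b a = true then -1 else 0

theorem adj_eq : X.adj = AZ.map (Int.castRingHom ℝ) := by
  ext a b
  by_cases h1 : arcB a b = true <;> by_cases h2 : arcB b a = true <;>
    simp [OGraph.adj, AZ, X, h1, h2]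

/-- spectral parts of the three basis vectors (times 27) -/
def P : Fin 3 → Fin 3 → Fin 26 → ℤ := ![
  ![![6, -3, -3, 0, 0, 0, 0, 0, 0, 0, 3, -3, 0, 0, 0, 0, 3, 3, 3, 3, -3, -3, -3, -3, -3, -3],
    ![12, -6, -6, 0, 0, 0, 0, 0, 0, 0, -3, 3, 0, 0, 0, 0, -3, -3, -3, -3, 3, 3, 3, 3, 3, 3],
    ![9, 9, 9, 0, 0, 0, 0, 0, 0, 0, 0, 0, 0, 0, 0, 0, 0, 0, 0, 0, 0, 0, 0, 0, 0, 0]],
  ![![-3, 6, -3, 0, 0, 0, 0, 0, 0, 0, -3, -3, -3, -3, -3, -3, 0, 0, 0, 0, 3, 3, 3, 3, 3, 3],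
    ![-6, 12, -6, 0, 0, 0, 0, 0, 0, 0, 3, 3, 3, 3, 3, 3, 0, 0, 0, 0, -3, -3, -3, -3, -3, -3],
    ![9, 9, 9, 0, 0, 0, 0, 0, 0, 0, 0, 0, 0, 0, 0, 0, 0, 0, 0, 0, 0, 0, 0, 0, 0, 0]],
  ![![-3, -3, 6, 0, 0, 0, 0, 0, 0, 0, 0, 6, 3, 3, 3, 3, -3, -3, -3, -3, 0, 0, 0, 0, 0, 0],
    ![-6, -6, 12, 0, 0, 0, 0, 0, 0, 0, 0, -6, -3, -3, -3, -3, 3, 3, 3, 3, 0, 0, 0, 0, 0, 0],
    ![9, 9, 9, 0, 0, 0, 0, 0, 0, 0, 0, 0, 0, 0, 0, 0, 0, 0, 0, 0, 0, 0, 0, 0, 0, 0]]]

/-- their images (times 27 / (3k)) -/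
def R : Fin 3 → Fin 3 → Fin 26 → ℤ := ![
  ![![0, 3, -3, 0, 0, 0, 0, 0, 0, 0, -1, -3, -2, -2, -2, -2, 1, 1, 1, 1, 1, 1, 1, 1, 1, 1],
    ![0, -6, 6, 0, 0, 0, 0, 0, 0, 0, -1, -3, -2, -2, -2, -2, 1, 1, 1, 1, 1, 1, 1, 1, 1, 1],
    ![0, 0, 0, -3, -3, -3, -3, -3, -3, -3, -2, 0, -1, -1, -1, -1, -1, -1, -1, -1, -1, -1, -1, -1, -1, -1]],
  ![![-3, 0, 3, 0, 0, 0, 0, 0, 0, 0, -1, 3, 1, 1, 1, 1, -2, -2, -2, -2, 1, 1, 1, 1, 1, 1],
    ![6, 0, -6, 0, 0, 0, 0, 0, 0, 0, -1, 3, 1, 1, 1, 1, -2, -2, -2, -2, 1, 1, 1, 1, 1, 1],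
    ![0, 0, 0, -3, -3, -3, -3, -3, -3, -3, -2, 0, -1, -1, -1, -1, -1, -1, -1, -1, -1, -1, -1, -1, -1, -1]],
  ![![3, -3, 0, 0, 0, 0, 0, 0, 0, 0, 2, 0, 1, 1, 1, 1, 1, 1, 1, 1, -2, -2, -2, -2, -2, -2],
    ![-6, 6, 0, 0, 0, 0, 0, 0, 0, 0, 2, 0, 1, 1, 1, 1, 1, 1, 1, 1, -2, -2, -2, -2, -2, -2],
    ![0, 0, 0, -3, -3, -3, -3, -3, -3, -3, -2, 0, -1, -1, -1, -1, -1, -1, -1, -1, -1, -1, -1, -1, -1, -1]]]

theorem AP : ∀ s k : Fin 3, AZ *ᵥ (P s k) = (3 * ((k : ℕ) + 1) : ℤ) • R s k := by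
  decide +kernel

theorem AR : ∀ s k : Fin 3, AZ *ᵥ (R s k) = (-((k : ℕ) + 1) : ℤ) • P s k := by
  decide +kernel

theorem sumP : ∀ s : Fin 3, P s 0 + P s 1 + P s 2 =
    (27 : ℤ) • (Pi.single (Fin.castLE (by norm_num) s) 1 : Fin 26 → ℤ) := by
  decide +kernel

theorem sumQ : ∀ s : Fin 3, -P s 0 + 3 • R s 0 - P s 1 - 3 • R s 1 + 2 • P s 2 =
    (54 : ℤ) • (Pi.single (Fin.castLE (by norm_num) (s + 1)) 1 : Fin 26 → ℤ) := by
  decide +kernel

/-- casts -/
def toR (v : Fin 26 → ℤ) : Fin 26 → ℝ := fun i => (v i : ℝ)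

theorem toR_mulVec (v : Fin 26 → ℤ) : X.adj *ᵥ toR v = toR (AZ *ᵥ v) := by
  rw [adj_eq]
  funext i
  have := RingHom.map_mulVec (Int.castRingHom ℝ) AZ v i
  exact this.symm

/-- the transfer time -/
noncomputable def τ : ℝ := 2 * Real.pi / 3 / Real.sqrt 3

theorem evol (s k : Fin 3) : NormedSpace.exp (τ • X.adj) *ᵥ toR (P s k) =
    Real.cos (((k : ℕ) + 1) * (2 * Real.pi / 3)) • toR (P s k) +
    (Real.sqrt 3 * Real.sin (((k : ℕ) + 1) * (2 * Real.pi / 3))) • toR (R s k) := by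
  have h3 : Real.sqrt 3 * Real.sqrt 3 = 3 := Real.mul_self_sqrt (by norm_num)
  have h3' : Real.sqrt 3 ≠ 0 := by positivity
  have e1 : X.adj *ᵥ toR (P s k) = (Real.sqrt 3 * ((k : ℕ) + 1)) • (Real.sqrt 3 • toR (R s k)) := by
    rw [toR_mulVec, AP, smul_smul]
    funext i
    simp only [toR, Pi.smul_apply, smul_eq_mul]
    push_cast
    have : Real.sqrt 3 * ((k : ℕ) + 1) * Real.sqrt 3 = 3 * ((k : ℕ) + 1) := by
      rw [mul_right_comm, h3]
    rw [this]
  have e2 : X.adj *ᵥ (Real.sqrt 3 • toR (R s k)) = -((Real.sqrt 3 * ((k : ℕ) + 1)) • toR (P s k)) := by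
    rw [Matrix.mulVec_smul, toR_mulVec, AR]
    funext i
    simp only [toR, Pi.smul_apply, Pi.neg_apply, smul_eq_mul]
    push_cast
    ring
  have e3 := exp_mulVec_rot e1 e2 τ
  have e4 : Real.sqrt 3 * ((k : ℕ) + 1) * τ = ((k : ℕ) + 1) * (2 * Real.pi / 3) := by
    unfold τ
    field_simp
  rw [e3, e4, smul_smul, mul_comm (Real.sin _)]

theorem cos_a : Real.cos (2 * Real.pi / 3) = -1 / 2 := by
  rw [show 2 * Real.pi / 3 = Real.pi - Real.pi / 3 by ring, Real.cos_pi_sub, Real.cos_pi_div_three]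
  norm_num

theorem sin_a : Real.sin (2 * Real.pi / 3) = Real.sqrt 3 / 2 := by
  rw [show 2 * Real.pi / 3 = Real.pi - Real.pi / 3 by ring, Real.sin_pi_sub, Real.sin_pi_div_three]

theorem cos_b : Real.cos (2 * (2 * Real.pi / 3)) = -1 / 2 := by
  rw [show 2 * (2 * Real.pi / 3) = Real.pi / 3 + Real.pi by ring, Real.cos_add_pi,
    Real.cos_pi_div_three]
  norm_num

theorem sin_b : Real.sin (2 * (2 * Real.pi / 3)) = -(Real.sqrt 3 / 2) := by
  rw [show 2 * (2 * Real.pi / 3) = Real.pi / 3 + Real.pi by ring, Real.sin_add_pi,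
    Real.sin_pi_div_three]

theorem step (s : Fin 3) : NormedSpace.exp (τ • X.adj) *ᵥ
    (Pi.single (Fin.castLE (by norm_num) s) 1 : Fin 26 → ℝ) =
    (Pi.single (Fin.castLE (by norm_num) (s + 1)) 1 : Fin 26 → ℝ) := by
  have h3 : Real.sqrt 3 * Real.sqrt 3 = 3 := Real.mul_self_sqrt (by norm_num)
  have e0 := evol s 0
  have e1 := evol s 1
  have e2 := evol s 2
  have c0 : (((0 : Fin 3) : ℕ) : ℝ) + 1 = 1 := by simp
  have c1 : (((1 : Fin 3) : ℕ) : ℝ) + 1 = 2 := by norm_num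
  have c2 : (((2 : Fin 3) : ℕ) : ℝ) + 1 = 3 := by norm_num
  rw [c0, one_mul, cos_a, sin_a] at e0
  rw [c1, cos_b, sin_b] at e1
  rw [c2, show (3 : ℝ) * (2 * Real.pi / 3) = 2 * Real.pi by ring, Real.cos_two_pi,
    Real.sin_two_pi] at e2
  have hs : (Pi.single (Fin.castLE (by norm_num) s) 1 : Fin 26 → ℝ) =
      (1 / 27 : ℝ) • (toR (P s 0) + toR (P s 1) + toR (P s 2)) := by
    funext i
    have h := congrFun (sumP s) i
    have h' : ((P s 0 i + P s 1 i + P s 2 i : ℤ) : ℝ) =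
        ((27 * (Pi.single (Fin.castLE (by norm_num) s) 1 : Fin 26 → ℤ) i : ℤ) : ℝ) := by
      exact_mod_cast h
    simp only [Pi.smul_apply, Pi.add_apply, toR, smul_eq_mul]
    push_cast at h'
    rw [h', Pi.single_apply, Pi.single_apply]
    split_ifs <;> simp
  have hs' : (Pi.single (Fin.castLE (by norm_num) (s + 1)) 1 : Fin 26 → ℝ) =
      (1 / 54 : ℝ) • (-toR (P s 0) + (3 : ℝ) • toR (R s 0) - toR (P s 1) - (3 : ℝ) • toR (R s 1) +
        (2 : ℝ) • toR (P s 2)) := by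
    funext i
    have h := congrFun (sumQ s) i
    have h' : ((-P s 0 i + 3 * R s 0 i - P s 1 i - 3 * R s 1 i + 2 * P s 2 i : ℤ) : ℝ) =
        ((54 * (Pi.single (Fin.castLE (by norm_num) (s + 1)) 1 : Fin 26 → ℤ) i : ℤ) : ℝ) := by
      have h2 : -P s 0 i + 3 * R s 0 i - P s 1 i - 3 * R s 1 i + 2 * P s 2 i =
        54 * (Pi.single (Fin.castLE (by norm_num) (s + 1)) 1 : Fin 26 → ℤ) i := by
        simpa using h
      exact_mod_cast h2
    simp only [Pi.smul_apply, Pi.add_apply, Pi.sub_apply, Pi.neg_apply, toR, smul_eq_mul]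
    push_cast at h'
    rw [h', Pi.single_apply, Pi.single_apply]
    split_ifs <;> simp
  rw [hs, Matrix.mulVec_smul, Matrix.mulVec_add, Matrix.mulVec_add, e0, e1, e2, hs']
  funext i
  simp only [Pi.smul_apply, Pi.add_apply, Pi.sub_apply, Pi.neg_apply, smul_eq_mul, mul_zero,
    zero_mul, add_zero, one_mul]
  have e5 : Real.sqrt 3 * (Real.sqrt 3 / 2) = 3 / 2 := by rw [← mul_div_assoc, h3]
  have e6 : Real.sqrt 3 * -(Real.sqrt 3 / 2) = -(3 / 2) := by rw [mul_neg, e5]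
  rw [e5, e6]
  ring

theorem two_steps (s : Fin 3) : NormedSpace.exp ((2 * τ) • X.adj) *ᵥ
    (Pi.single (Fin.castLE (by norm_num) s) 1 : Fin 26 → ℝ) =
    (Pi.single (Fin.castLE (by norm_num) (s + 1 + 1)) 1 : Fin 26 → ℝ) := by
  rw [two_mul, add_smul, Matrix.exp_add_of_commute _ _ (Commute.refl _), ← Matrix.mulVec_mulVec,
    step, step]

theorem pst (s s' : Fin 3) (h : s ≠ s') :
    PST X (Fin.castLE (by norm_num) s) (Fin.castLE (by norm_num) s') := by
  have h' : s' = s + 1 ∨ s' = s + 1 + 1 := by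
    revert s s'
    decide
  rcases h' with rfl | rfl
  · exact ⟨τ, 1, by simp, by rw [one_smul]; exact step s⟩
  · exact ⟨2 * τ, 1, by simp, by rw [one_smul]; exact two_steps s⟩

/-- the degree in the underlying graph -/
def deg (v : Fin 26) : ℕ := (Finset.univ.filter fun u => AZ v u ≠ 0).card

/-- the number of leaves at `v` -/
def lv (v : Fin 26) : ℕ := (Finset.univ.filter fun u => AZ v u ≠ 0 ∧ deg u = 1).card

theorem lv_two : ∀ v, lv v = lv 2 → v = 2 := by decide +kernel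

theorem aut_nonzero {σ : Equiv.Perm (Fin 26)} {d : Fin 26 → ℝ} (h : IsSwitchingAut X σ d)
    (a b : Fin 26) : AZ (σ a) (σ b) ≠ 0 ↔ AZ a b ≠ 0 := by
  obtain ⟨hd, hP⟩ := h
  have h1 := congrFun (congrFun hP a) b
  have h2 : ((monomialMatrix σ d)ᵀ * X.adj * monomialMatrix σ d) a b =
      d a * X.adj (σ a) (σ b) * d b := by
    simp only [Matrix.mul_apply, monomialMatrix, Matrix.transpose_apply, Matrix.of_apply,
      ite_mul, zero_mul, mul_ite, mul_zero, Finset.sum_ite_eq', Finset.mem_univ, if_true]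
  have h3 : ∀ x y, X.adj x y = ((AZ x y : ℤ) : ℝ) := fun x y => by rw [adj_eq]; rfl
  rw [h2, h3, h3] at h1
  have h4 : d a ≠ 0 := by rcases hd a with h | h <;> rw [h] <;> norm_num
  have h5 : d b ≠ 0 := by rcases hd b with h | h <;> rw [h] <;> norm_num
  constructor
  · intro h6 h7
    rw [h7, Int.cast_zero] at h1
    have h8 : ((AZ (σ a) (σ b) : ℤ) : ℝ) ≠ 0 := by exact_mod_cast h6
    exact (mul_ne_zero (mul_ne_zero h4 h8) h5) h1
  · intro h6 h7
    rw [h7, Int.cast_zero, mul_zero, zero_mul] at h1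
    exact h6 (by exact_mod_cast h1.symm)

theorem deg_aut {σ : Equiv.Perm (Fin 26)} {d : Fin 26 → ℝ} (h : IsSwitchingAut X σ d)
    (v : Fin 26) : deg (σ v) = deg v := by
  unfold deg
  symm
  refine Finset.card_bij (fun u _ => σ u) ?_ ?_ ?_
  · intro u hu
    rw [Finset.mem_filter] at hu ⊢
    exact ⟨Finset.mem_univ _, (aut_nonzero h v u).2 hu.2⟩
  · intro u _ u' _ e
    exact σ.injective e
  · intro u hu
    rw [Finset.mem_filter] at hu
    refine ⟨σ.symm u, ?_, by simp⟩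
    rw [Finset.mem_filter]
    refine ⟨Finset.mem_univ _, (aut_nonzero h v _).1 ?_⟩
    rw [Equiv.apply_symm_apply]
    exact hu.2

theorem lv_aut {σ : Equiv.Perm (Fin 26)} {d : Fin 26 → ℝ} (h : IsSwitchingAut X σ d)
    (v : Fin 26) : lv (σ v) = lv v := by
  unfold lv
  symm
  refine Finset.card_bij (fun u _ => σ u) ?_ ?_ ?_
  · intro u hu
    rw [Finset.mem_filter] at hu ⊢
    exact ⟨Finset.mem_univ _, (aut_nonzero h v u).2 hu.2.1, by rw [deg_aut h]; exact hu.2.2⟩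
  · intro u _ u' _ e
    exact σ.injective e
  · intro u hu
    rw [Finset.mem_filter] at hu
    refine ⟨σ.symm u, ?_, by simp⟩
    rw [Finset.mem_filter]
    refine ⟨Finset.mem_univ _, (aut_nonzero h v _).1 ?_, ?_⟩
    · rw [Equiv.apply_symm_apply]
      exact hu.2.1
    · rw [← deg_aut h, Equiv.apply_symm_apply]
      exact hu.2.2

/-- There is an oriented graph with non-trivial multiple state transfer on a set `S` that does
not arise from a switching automorphism; moreover no switching automorphism has an orbit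
containing `S`. -/
theorem result : ∃ (n : ℕ) (X : OGraph (Fin n)) (S : Finset (Fin n)), NontrivialMST X S ∧
    ¬ Arises X S ∧
    ∀ (σ : Equiv.Perm (Fin n)) (d : Fin n → ℝ), IsSwitchingAut X σ d →
      ¬ ∃ a ∈ S, ∀ s ∈ S, ∃ k : ℕ, (σ ^ k) a = s := by
  have hmain : ∀ (σ : Equiv.Perm (Fin 26)) (d : Fin 26 → ℝ), IsSwitchingAut X σ d →
      ¬ ∃ a ∈ ({0, 1, 2} : Finset (Fin 26)), ∀ s ∈ ({0, 1, 2} : Finset (Fin 26)),
        ∃ k : ℕ, (σ ^ k) a = s := by
    rintro σ d hσ ⟨a, -, ha⟩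
    have h2 : σ 2 = 2 := lv_two _ (lv_aut hσ 2)
    have hk : ∀ k : ℕ, (σ ^ k) 2 = 2 := by
      intro k
      induction k with
      | zero => rfl
      | succ k ih => rw [pow_succ, Equiv.Perm.mul_apply, h2, ih]
    obtain ⟨k, hk1⟩ := ha 2 (by simp)
    have ha2 : a = 2 := (σ ^ k).injective (by rw [hk1, hk])
    obtain ⟨j, hj⟩ := ha 0 (by simp)
    rw [ha2, hk] at hj
    exact absurd hj (by decide)
  refine ⟨26, X, {0, 1, 2}, ⟨by decide, ?_⟩, ?_, hmain⟩
  · have hS : ∀ a ∈ ({0, 1, 2} : Finset (Fin 26)), ∃ s : Fin 3,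
        a = Fin.castLE (by norm_num) s := by decide
    intro a ha b hb hab
    obtain ⟨s, rfl⟩ := hS a ha
    obtain ⟨s', rfl⟩ := hS b hb
    exact pst s s' fun h => hab (by rw [h])
  · rintro ⟨σ, d, hσ, a, ha, -, h⟩
    exact hmain σ d hσ ⟨a, ha, h⟩

end Pool.Agent.Results.MP_620d87_co.AsymmetricTransfer
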